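import Pool.Agent.PDM.Stmts

/-!
# PDM: sums over the large vertices
-/

set_option autoImplicit false

namespace Pool.Agent.PDM.H69

variable {t : ℕ}

theorem sc_pos (τ : Ins t) : 400 ≤ sc τ := by
  unfold sc
  omega

theorem off_pos (t : ℕ) : 8 ≤ off t := by
  unfold off bs
  have h1 : 1 ≤ (4 * (t + 1) ^ 2) ^ 6 := Nat.one_le_pow _ _ (by positivity)
  calc 8 = 8 * 1 * 1 := rfl
    _ ≤ 8 * (t + 1) * (4 * (t + 1) ^ 2) ^ 6 :=
        Nat.mul_le_mul (Nat.mul_le_mul_left _ (by omega)) h1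

theorem vA_pos (k : Fin 3) (i : Fin t) : 64 ≤ vA k i := by
  unfold vA
  have := off_pos t
  omega

theorem vC_pos (p : Fin t × Fin t × Fin t) : 192 ≤ vC p := by
  unfold vC
  have h1 := vA_pos 0 p.1
  have h2 := vA_pos 1 p.2.1
  have h3 := vA_pos 2 p.2.2
  omega

theorem vD_pos (t : ℕ) : 9 ≤ vD t := by
  unfold vD
  omega

/-- `vZ + sA = sC + (4 t + 4) vD` -/
theorem vZ_eq (τ : Ins t) : vZ τ + sA t = sC τ + (4 * t + 4) * vD t ∧ 36 ≤ vZ τ := by
  have h1 : 4 * vD t ≤ (4 * t + 4) * vD t := Nat.mul_le_mul_right _ (by omega)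
  have h2 : vD t = 2 * sA t + 9 := rfl
  unfold vZ
  constructor <;> omega

theorem sc_mul (τ : Ins t) {a : ℕ} (h : 1 ≤ a) : 200 * (t + τ.card + 2) ≤ sc τ * a := by
  calc 200 * (t + τ.card + 2) = sc τ * 1 := by rw [Nat.mul_one]; rfl
    _ ≤ sc τ * a := Nat.mul_le_mul_left _ h

theorem card_big (τ : Ins t) : Fintype.card (Big τ) = 7 * t + τ.card + 9 := by
  unfold Big
  simp only [Fintype.card_sum, Fintype.card_prod, Fintype.card_fin, Fintype.card_coe,
    Fintype.card_bool, Fintype.card_unit]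
  omega

theorem card_mrk (τ : Ins t) : Nat.card {v : Big τ // mrk v = true} = 6 * t + 6 := by
  rw [Nat.card_eq_fintype_card, Fintype.card_subtype, Finset.card_filter]
  unfold Big
  rw [Fintype.sum_sum_type, Fintype.sum_sum_type, Fintype.sum_sum_type, Fintype.sum_sum_type]
  have h1 : ∑ x : Fin 3 × Fin t, (if mrk (τ := τ) (Sum.inl x) = true then 1 else 0) = 2 * t := by
    rw [Fintype.sum_prod_type, Fin.sum_univ_three]
    simp only [mrk]
    simp
    omega
  have h2 : ∑ x : ↥τ, (if mrk (τ := τ) (Sum.inr (Sum.inl x)) = true then 1 else 0) = 0 := by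
    simp [mrk]
  have h3 : ∑ x : Fin 2 × Bool,
      (if mrk (τ := τ) (Sum.inr (Sum.inr (Sum.inl x))) = true then 1 else 0) = 2 := by
    rw [Fintype.sum_prod_type, Fin.sum_univ_two]
    simp [mrk]
  have h4 : ∑ x : Fin (4 * t + 4),
      (if mrk (τ := τ) (Sum.inr (Sum.inr (Sum.inr (Sum.inl x)))) = true then 1 else 0) =
        4 * t + 4 := by
    simp [mrk]
  have h5 : ∑ x : Unit,
      (if mrk (τ := τ) (Sum.inr (Sum.inr (Sum.inr (Sum.inr x)))) = true then 1 else 0) = 0 := by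
    simp [mrk]
  rw [h1, h2, h3, h4, h5]
  omega

theorem sum_dgr (τ : Ins t) : ∑ v : Big τ, dgr v + 24 * τ.card + 2 * t + 20 + sc τ * sA t =
    sc τ * sA t + sc τ * sC τ + (8 * sc τ + 6) + (4 * t + 4) * (sc τ * vD t) + sc τ * vZ τ +
      sc τ * sA t := by
  unfold Big
  rw [Fintype.sum_sum_type, Fintype.sum_sum_type, Fintype.sum_sum_type, Fintype.sum_sum_type]
  have h1 : ∑ x : Fin 3 × Fin t, dgr (τ := τ) (Sum.inl x) = sc τ * sA t := by
    simp only [dgr]
    rw [Fintype.sum_prod_type, sA, Finset.mul_sum]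
    refine Finset.sum_congr rfl fun k _ => ?_
    rw [Finset.mul_sum]
  have h2 : ∑ x : ↥τ, dgr (τ := τ) (Sum.inr (Sum.inl x)) + 10 * τ.card = sc τ * sC τ := by
    have e1 : ∑ x : ↥τ, dgr (τ := τ) (Sum.inr (Sum.inl x)) =
        ∑ p ∈ τ, (sc τ * vC p - 10) := by
      rw [← Finset.sum_coe_sort τ (fun p => sc τ * vC p - 10)]
      rfl
    have e2 : 10 * τ.card = ∑ _p ∈ τ, 10 := by
      rw [Finset.sum_const, smul_eq_mul, Nat.mul_comm]
    rw [e1, e2, ← Finset.sum_add_distrib, sC, Finset.mul_sum]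
    refine Finset.sum_congr rfl fun p _ => ?_
    have h3 := sc_mul τ (a := vC p) (by have := vC_pos p; omega)
    omega
  have h3 : ∑ x : Fin 2 × Bool, dgr (τ := τ) (Sum.inr (Sum.inr (Sum.inl x))) =
      8 * sc τ + 6 := by
    rw [Fintype.sum_prod_type, Fin.sum_univ_two]
    simp only [Fintype.sum_bool, dgr]
    simp
    ring
  have h4 : ∑ x : Fin (4 * t + 4), dgr (τ := τ) (Sum.inr (Sum.inr (Sum.inr (Sum.inl x)))) =
      (4 * t + 4) * (sc τ * vD t) := by
    simp only [dgr]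
    rw [Finset.sum_const, Finset.card_univ, Fintype.card_fin, smul_eq_mul]
  have h5 : ∑ x : Unit, dgr (τ := τ) (Sum.inr (Sum.inr (Sum.inr (Sum.inr x)))) +
      (14 * τ.card + 2 * t + 20) = sc τ * vZ τ := by
    rw [Fintype.sum_unique]
    simp only [dgr]
    have h6 := sc_mul τ (a := vZ τ) (by have := (vZ_eq τ).2; omega)
    omega
  rw [h1, h3, h4]
  omega

theorem num : NumStmt := by
  intro t τ
  have hc := card_big τ
  have hz := vZ_eq τ
  refine ⟨hc, card_mrk τ, ?_, ?_, ?_⟩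
  · have hs := sum_dgr τ
    have h1 : sc τ * vZ τ + sc τ * sA t = sc τ * sC τ + (4 * t + 4) * (sc τ * vD t) := by
      rw [← Nat.mul_add, hz.1]
      ring
    have h2 : sc τ * (4 + sC τ + (4 * t + 4) * vD t) =
        4 * sc τ + sc τ * sC τ + (4 * t + 4) * (sc τ * vD t) := by ring
    have h3 : n4 τ + (15 * τ.card + 22 * t + 28) = sc τ * (4 + sC τ + (4 * t + 4) * vD t) := by
      unfold n4
      have h4 := sc_mul τ (a := 4 + sC τ + (4 * t + 4) * vD t) (by omega)
      omega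
    rw [hc]
    omega
  · intro v
    have hsc := sc_pos τ
    rcases v with x | p | x | x | x
    · have h1 := sc_mul τ (a := vA x.1 x.2) (by have := vA_pos x.1 x.2; omega)
      change 100 ≤ sc τ * vA x.1 x.2
      omega
    · have h1 := sc_mul τ (a := vC p.1) (by have := vC_pos p.1; omega)
      change 100 ≤ sc τ * vC p.1 - 10
      omega
    · change 100 ≤ sc τ * (if x.1 = 0 then 1 else 3) + (if x.2 then 3 else 0)
      have h1 := sc_mul τ (a := if x.1 = 0 then 1 else 3) (by split_ifs <;> omega)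
      omega
    · have h1 := sc_mul τ (a := vD t) (by have := vD_pos t; omega)
      change 100 ≤ sc τ * vD t
      omega
    · have h1 := sc_mul τ (a := vZ τ) (by omega)
      change 100 ≤ sc τ * vZ τ - (14 * τ.card + 2 * t + 20)
      omega
  · rw [hc]
    unfold n3
    omega

end Pool.Agent.PDM.H69
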